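import Mathlib

/-!
# Uniquely ergodic systems with sparse phase flips

For `g ≥ 2` we consider the skew product `X = Y × ZMod g`, `T (y, j) = (shift y, j + 1 + y 0)`,
over the closed shift-invariant set `Y` of `0-1` sequences whose ones are sparse.
-/

open MeasureTheory Filter Topology

namespace Pool.Agent.Helper75_OmegaForms

/-- `0-1` sequences whose ones are sparse: for three ones at places `i < j < k` the second gap is at
least as large as the first one. -/
def Y : Set (ℕ → Bool) :=
  {y | ∀ i j k : ℕ, i < j → j < k → y i = true → y j = true → y k = true → 2 * j ≤ i + k}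

lemma isClosed_Y : IsClosed Y := by
  have h : Y = ⋂ (i : ℕ) (j : ℕ) (k : ℕ), {y : ℕ → Bool | i < j → j < k → y i = true → y j = true →
      y k = true → 2 * j ≤ i + k} := by
    ext y; simp [Y]
  rw [h]
  refine isClosed_iInter fun i => isClosed_iInter fun j => isClosed_iInter fun k => ?_
  have h1 : ∀ n : ℕ, IsOpen {y : ℕ → Bool | y n = true} := by
    intro n
    have hc : Continuous (fun y : ℕ → Bool => y n) := continuous_apply n
    have := (isOpen_discrete ({true} : Set Bool)).preimage hc
    have he : {y : ℕ → Bool | y n = true} = (fun y : ℕ → Bool => y n) ⁻¹' {true} := by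
      ext y; simp
    rw [he]
    exact this
  exact isClosed_imp isOpen_const (isClosed_imp isOpen_const (isClosed_imp (h1 i)
    (isClosed_imp (h1 j) (isClosed_imp (h1 k) isClosed_const))))

instance : CompactSpace Y := isCompact_iff_compactSpace.mp isClosed_Y.isCompact

/-- The shift on `Y`. -/
def S (y : Y) : Y := ⟨fun n => y.1 (n + 1), by
  intro i j k hij hjk hi hj hk
  have := y.2 (i + 1) (j + 1) (k + 1) (by omega) (by omega) hi hj hk
  omega⟩

lemma S_iter (y : Y) (n i : ℕ) : (S^[n] y).1 i = y.1 (i + n) := by
  induction n generalizing y with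
  | zero => rfl
  | succ n ih =>
    rw [Function.iterate_succ_apply, ih]
    show y.1 (i + n + 1) = _
    congr 1

/-- The value at `0` as an element of `ZMod g`. -/
def bit (g : ℕ) (b : Bool) : ZMod g := if b then 1 else 0

/-- The phase space. -/
abbrev X (g : ℕ) : Type := Y × ZMod g

/-- The skew product. -/
def T (g : ℕ) (x : X g) : X g := (S x.1, x.2 + 1 + bit g (x.1.1 0))

lemma continuous_S : Continuous S := by
  refine Continuous.subtype_mk ?_ _
  refine continuous_pi fun n => ?_
  exact (continuous_apply (n + 1)).comp continuous_subtype_val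

lemma continuous_T (g : ℕ) : Continuous (T g) := by
  refine Continuous.prodMk (continuous_S.comp continuous_fst) ?_
  refine (continuous_snd.add continuous_const).add ?_
  have : Continuous (bit g) := continuous_of_discreteTopology
  exact this.comp ((continuous_apply 0).comp (continuous_subtype_val.comp continuous_fst))

/-- Number of ones of `y` before `n`. -/
def cnt (y : ℕ → Bool) (n : ℕ) : ℕ := ((Finset.range n).filter (fun i => y i = true)).card

lemma T_iter (g : ℕ) (x : X g) (n : ℕ) :
    (T g)^[n] x = (S^[n] x.1, x.2 + n + (cnt x.1.1 n : ZMod g)) := by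
  induction n with
  | zero => simp [cnt]
  | succ n ih =>
    rw [Function.iterate_succ_apply', ih]
    refine Prod.ext ?_ ?_
    · simp [T, Function.iterate_succ_apply']
    · simp only [T, S_iter, zero_add]
      have : cnt x.1.1 (n + 1) = cnt x.1.1 n + (if x.1.1 n = true then 1 else 0) := by
        unfold cnt
        rw [Finset.range_add_one, Finset.filter_insert]
        split_ifs with h
        · rw [Finset.card_insert_of_notMem (by simp)]
        · simp
      rw [this]
      unfold bit
      split_ifs <;> push_cast <;> ring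

/-- Sparse sequences have few ones. -/
lemma cnt_aux (y : ℕ → Bool) (hy : y ∈ Y) (p : ℕ) (hp : y p = true) (k : ℕ) :
    ((Finset.Ico p (p + 2 ^ k)).filter (fun i => y i = true)).card ≤ k + 1 := by
  induction k with
  | zero => 
    simp only [pow_zero, zero_add]
    refine (Finset.card_filter_le _ _).trans ?_
    simp
  | succ k ih =>
    have hsplit : Finset.Ico p (p + 2 ^ (k + 1)) =
        Finset.Ico p (p + 2 ^ k) ∪ Finset.Ico (p + 2 ^ k) (p + 2 ^ (k + 1)) := by
      have : 2 ^ k ≤ 2 ^ (k + 1) := Nat.pow_le_pow_right (by norm_num) (by omega)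
      rw [Finset.Ico_union_Ico_eq_Ico (by omega) (by omega)]
    rw [hsplit, Finset.filter_union]
    refine (Finset.card_union_le _ _).trans ?_
    have hpos : 0 < 2 ^ k := by positivity
    have h1 : ((Finset.Ico (p + 2 ^ k) (p + 2 ^ (k + 1))).filter (fun i => y i = true)).card ≤ 1 := by
      rw [Finset.card_le_one]
      intro a ha b hb
      simp only [Finset.mem_filter, Finset.mem_Ico] at ha hb
      have key : ∀ a b : ℕ, p + 2 ^ k ≤ a → b < p + 2 ^ (k + 1) → y a = true → y b = true →
          ¬ a < b := by
        intro a b ha hb hya hyb hab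
        have hpa : p < a := by omega
        have := hy p a b hpa hab hp hya hyb
        have h2 : 2 ^ (k + 1) = 2 * 2 ^ k := by ring
        omega
      have h3 := key a b ha.1.1 hb.1.2 ha.2 hb.2
      have h4 := key b a hb.1.1 ha.1.2 hb.2 ha.2
      omega
    omega

lemma cnt_le (y : ℕ → Bool) (hy : y ∈ Y) (k : ℕ) : cnt y (2 ^ k) ≤ k + 1 := by
  unfold cnt
  by_cases h : ∃ p, y p = true
  · classical
    have hp := Nat.find_spec h
    have hmin : ∀ i, y i = true → Nat.find h ≤ i := fun i hi => Nat.find_min' h hi
    refine le_trans (Finset.card_le_card ?_) (cnt_aux y hy (Nat.find h) hp k)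
    intro i hi
    simp only [Finset.mem_filter, Finset.mem_range, Finset.mem_Ico] at hi ⊢
    exact ⟨⟨hmin i hi.2, by omega⟩, hi.2⟩
  · push Not at h
    simp [h]

instance (g : ℕ) : MeasurableSpace (X g) := borel (X g)
instance (g : ℕ) : BorelSpace (X g) := ⟨rfl⟩

/-- The zero sequence. -/
def zeroY : Y := ⟨fun _ => false, by intro i j k _ _ h; simp at h⟩

lemma S_zeroY : S zeroY = zeroY := rfl

/-- The periodic points of the skew product. -/
def pt (g : ℕ) (j : ZMod g) : X g := (zeroY, j)

lemma T_pt (g : ℕ) (j : ZMod g) : T g (pt g j) = pt g (j + 1) := by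
  have h : (zeroY.1 0) = false := rfl
  simp [T, pt, S_zeroY, bit, h]

lemma pt_injective (g : ℕ) : Function.Injective (pt g) := by
  intro a b h
  simpa [pt] using h

/-- The set of points whose sequence has a one at place `n`. -/
def E (g : ℕ) (n : ℕ) : Set (X g) := {x | x.1.1 n = true}

lemma isOpen_E (g n : ℕ) : IsOpen (E g n) := by
  have hc : Continuous (fun x : X g => x.1.1 n) :=
    (continuous_apply n).comp (continuous_subtype_val.comp continuous_fst)
  have := (isOpen_discrete ({true} : Set Bool)).preimage hc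
  have he : E g n = (fun x : X g => x.1.1 n) ⁻¹' {true} := by
    ext y; simp [E]
  rw [he]
  exact this

lemma E_preimage (g n : ℕ) : (T g)^[n] ⁻¹' (E g 0) = E g n := by
  ext x
  simp [E, T_iter, S_iter]

lemma compl_range_pt (g : ℕ) : (Set.range (pt g))ᶜ = ⋃ n, E g n := by
  ext x
  simp only [Set.mem_compl_iff, Set.mem_range, Set.mem_iUnion, E, Set.mem_ofPred_eq, not_exists]
  constructor
  · intro h
    by_contra hcon
    push Not at hcon
    apply h x.2
    refine Prod.ext ?_ rfl
    apply Subtype.ext
    funext n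
    have := hcon n
    simp only [Bool.not_eq_true] at this
    rw [this]; rfl
  · rintro ⟨n, hn⟩ j rfl
    simp [pt, zeroY] at hn

lemma measure_E_zero (g : ℕ) (μ : Measure (X g)) [IsProbabilityMeasure μ]
    (hμ : MeasurePreserving (T g) μ μ) (n : ℕ) : μ (E g n) = 0 := by
  have hn : ∀ n, μ (E g n) = μ (E g 0) := by
    intro n
    rw [← E_preimage]
    exact (hμ.iterate n).measure_preimage (isOpen_E g 0).measurableSet.nullMeasurableSet
  have hsum : ∀ k : ℕ, (2 ^ k : ENNReal) * μ (E g 0) ≤ (k + 1 : ℕ) := by
    intro k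
    have h1 : ∑ i ∈ Finset.range (2 ^ k), μ (E g i) = (2 ^ k : ENNReal) * μ (E g 0) := by
      simp [hn]
    rw [← h1]
    have h2 : ∑ i ∈ Finset.range (2 ^ k), μ (E g i) =
        ∫⁻ x, ∑ i ∈ Finset.range (2 ^ k), (E g i).indicator (fun _ => (1 : ENNReal)) x ∂μ := by
      rw [lintegral_finsetSum]
      · refine Finset.sum_congr rfl fun i _ => ?_
        rw [lintegral_indicator (isOpen_E g i).measurableSet]
        simp
      · intro i _
        exact measurable_const.indicator (isOpen_E g i).measurableSet
    rw [h2]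
    have h3 : ∀ x : X g, ∑ i ∈ Finset.range (2 ^ k), (E g i).indicator (fun _ => (1 : ENNReal)) x
        ≤ ((k + 1 : ℕ) : ENNReal) := by
      intro x
      have h4 : ∑ i ∈ Finset.range (2 ^ k), (E g i).indicator (fun _ => (1 : ENNReal)) x
          = ((cnt x.1.1 (2 ^ k) : ℕ) : ENNReal) := by
        unfold cnt
        rw [Finset.card_filter]
        push_cast
        refine Finset.sum_congr rfl fun i _ => ?_
        by_cases h : x.1.1 i = true
        · simp [E, Set.indicator, h]
        · simp [E, Set.indicator, h]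
      rw [h4]
      exact_mod_cast cnt_le x.1.1 x.1.2 k
    calc ∫⁻ x, ∑ i ∈ Finset.range (2 ^ k), (E g i).indicator (fun _ => (1 : ENNReal)) x ∂μ
        ≤ ∫⁻ _, ((k + 1 : ℕ) : ENNReal) ∂μ := lintegral_mono h3
      _ = ((k + 1 : ℕ) : ENNReal) := by simp
  rw [hn]
  by_contra hne
  have hfin : μ (E g 0) ≠ ⊤ := measure_ne_top _ _
  have hpos : 0 < (μ (E g 0)).toReal := ENNReal.toReal_pos hne hfin
  have hreal : ∀ k : ℕ, (2 : ℝ) ^ k * (μ (E g 0)).toReal ≤ k + 1 := by
    intro k
    have h5 := ENNReal.toReal_mono (ENNReal.natCast_ne_top (k + 1)) (hsum k)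
    rw [ENNReal.toReal_mul, ENNReal.toReal_natCast, ENNReal.toReal_pow] at h5
    simpa using h5
  have hlim : Tendsto (fun k : ℕ => ((k : ℝ) + 1) / 2 ^ k) atTop (𝓝 0) := by
    have h1 : Tendsto (fun k : ℕ => (k : ℝ) * (1 / 2 : ℝ) ^ k) atTop (𝓝 0) :=
      tendsto_self_mul_const_pow_of_lt_one (by norm_num) (by norm_num)
    have h2 : Tendsto (fun k : ℕ => (1 / 2 : ℝ) ^ k) atTop (𝓝 0) :=
      tendsto_pow_atTop_nhds_zero_of_lt_one (by norm_num) (by norm_num)
    have h3 := h1.add h2
    simp only [add_zero] at h3
    refine h3.congr fun k => ?_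
    rw [one_div, inv_pow]
    field_simp
  have hev := (hlim.eventually (gt_mem_nhds hpos)).exists
  obtain ⟨k, hk⟩ := hev
  have h2k : (0 : ℝ) < 2 ^ k := by positivity
  have := hreal k
  rw [div_lt_iff₀ h2k] at hk
  linarith [mul_comm ((2:ℝ)^k) (μ (E g 0)).toReal]

/-- The mass of the points of the cycle. -/
lemma measure_pt (g : ℕ) [NeZero g] (μ : Measure (X g)) [IsProbabilityMeasure μ]
    (hμ : MeasurePreserving (T g) μ μ) (j : ZMod g) : μ {pt g j} = μ {pt g 0} := by
  have hle : ∀ j : ZMod g, μ {pt g j} ≤ μ {pt g (j + 1)} := by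
    intro j
    have h1 : μ (T g ⁻¹' {pt g (j + 1)}) = μ {pt g (j + 1)} :=
      hμ.measure_preimage (measurableSet_singleton _).nullMeasurableSet
    rw [← h1]
    apply measure_mono
    intro x hx
    simp only [Set.mem_singleton_iff] at hx
    simp [hx, T_pt]
  have hle' : ∀ (n : ℕ) (j : ZMod g), μ {pt g j} ≤ μ {pt g (j + n)} := by
    intro n
    induction n with
    | zero => intro j; simp
    | succ n ih =>
      intro j
      refine (ih j).trans ?_
      have := hle (j + n)
      rw [add_assoc] at this
      exact_mod_cast this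
  apply le_antisymm
  · have := hle' (-j).val j
    simpa using this
  · have := hle' j.val 0
    simpa using this

lemma measure_eq (g : ℕ) [NeZero g] (μ : Measure (X g)) [IsProbabilityMeasure μ]
    (hμ : MeasurePreserving (T g) μ μ) :
    μ = (g : ENNReal)⁻¹ • ∑ j : ZMod g, Measure.dirac (pt g j) := by
  classical
  have hnull : μ (Set.range (pt g))ᶜ = 0 := by
    rw [compl_range_pt]
    exact measure_iUnion_null fun n => measure_E_zero g μ hμ n
  have hfin : (Set.range (pt g)).Finite := Set.finite_range _
  have hval : ∀ A : Set (X g), μ A = ∑ j : ZMod g, (if pt g j ∈ A then μ {pt g 0} else 0) := by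
    intro A
    have h1 : μ A = μ (A ∩ Set.range (pt g)) := by
      refine (measure_inter_conull ?_).symm
      exact measure_mono_null (fun x hx => hx) hnull
    have h2 : A ∩ Set.range (pt g) = ⋃ j ∈ (Finset.univ.filter (fun j : ZMod g => pt g j ∈ A)), {pt g j} := by
      ext x
      simp only [Set.mem_inter_iff, Set.mem_range, Finset.mem_filter, Finset.mem_univ, true_and,
        Set.mem_iUnion, Set.mem_singleton_iff, exists_prop]
      constructor
      · rintro ⟨h, j, rfl⟩
        exact ⟨j, h, rfl⟩
      · rintro ⟨j, h, rfl⟩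
        exact ⟨h, j, rfl⟩
    rw [h1, h2, measure_biUnion_finset, Finset.sum_filter]
    · refine Finset.sum_congr rfl fun j _ => ?_
      rw [measure_pt g μ hμ j]
    · intro i _ j _ hij
      simp only [Function.onFun, Set.disjoint_singleton]
      exact fun h => hij (pt_injective g h)
    · intro i _
      exact measurableSet_singleton _
  have hpt : μ {pt g 0} = (g : ENNReal)⁻¹ := by
    have h1 := hval Set.univ
    simp only [measure_univ, Set.mem_univ, if_true, Finset.sum_const, Finset.card_univ, ZMod.card,
      nsmul_eq_mul] at h1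
    exact ENNReal.eq_inv_of_mul_eq_one_left (by rw [mul_comm]; exact h1.symm)
  ext A hA
  rw [hval A, Measure.smul_apply, Measure.finsetSum_apply, smul_eq_mul, Finset.mul_sum]
  refine Finset.sum_congr rfl fun j _ => ?_
  rw [Measure.dirac_apply' _ hA, hpt]
  by_cases h : pt g j ∈ A
  · simp [h]
  · simp [h]

/-- The invariant measure of the cycle. -/
noncomputable def mu0 (g : ℕ) [NeZero g] : Measure (X g) :=
  (g : ENNReal)⁻¹ • ∑ j : ZMod g, Measure.dirac (pt g j)

instance (g : ℕ) [NeZero g] : IsProbabilityMeasure (mu0 g) := by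
  refine ⟨?_⟩
  simp only [mu0, Measure.smul_apply, Measure.finsetSum_apply, smul_eq_mul, measure_univ,
    Finset.sum_const, Finset.card_univ, ZMod.card, nsmul_eq_mul, mul_one]
  exact ENNReal.inv_mul_cancel (by exact_mod_cast (NeZero.ne g)) (ENNReal.natCast_ne_top g)

lemma mu0_preserving (g : ℕ) [NeZero g] : MeasurePreserving (T g) (mu0 g) (mu0 g) := by
  refine ⟨(continuous_T g).measurable, ?_⟩
  have hmeas : Measurable (T g) := (continuous_T g).measurable
  unfold mu0
  rw [Measure.map_smul]
  congr 1
  ext A hA
  rw [Measure.map_apply hmeas hA, Measure.finsetSum_apply, Measure.finsetSum_apply]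
  have h1 : ∀ j : ZMod g, Measure.dirac (pt g j) (T g ⁻¹' A) = Measure.dirac (pt g (j + 1)) A := by
    intro j
    rw [Measure.dirac_apply' _ (hmeas hA), Measure.dirac_apply' _ hA]
    by_cases h : T g (pt g j) ∈ A
    · have h' : pt g (j + 1) ∈ A := by rwa [T_pt] at h
      simp [h, h']
    · have h' : pt g (j + 1) ∉ A := by rwa [T_pt] at h
      simp [h, h']
  rw [Finset.sum_congr rfl fun j _ => h1 j]
  exact Fintype.sum_equiv (Equiv.addRight (1 : ZMod g)) _ _ (fun j => by simp)

/-- Unique ergodicity of the skew product. -/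
theorem existsUnique_invariant (g : ℕ) [NeZero g] :
    ∃! μ : ProbabilityMeasure (X g), MeasurePreserving (T g) (μ : Measure (X g)) μ := by
  refine ⟨⟨mu0 g, inferInstance⟩, mu0_preserving g, ?_⟩
  intro ν hν
  apply Subtype.ext
  exact measure_eq g (ν : Measure (X g)) hν

end Pool.Agent.Helper75_OmegaForms
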