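import Mathlib
import Pool.Agent.Helper75_OmegaForms.Dyn

/-!
# Divergence of the averages along sparse phase flips
-/

open MeasureTheory Filter Topology

namespace Pool.Agent.Helper75_OmegaForms

section Construction

variable (H : ℕ → ℕ → ℕ → ℕ)

/-- Smallness condition: for every bound `K` there are arbitrarily large boxes in which `h ≤ K`
happens for at most a quarter of the pairs. -/
def Escapes (h : ℕ → ℕ → ℕ) : Prop :=
  ∀ K N0 : ℕ, ∃ N : ℕ, N0 ≤ N ∧ 0 < N ∧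
    4 * ((Finset.Icc 1 N ×ˢ Finset.Icc 1 N).filter (fun q : ℕ × ℕ => h q.1 q.2 ≤ K)).card ≤ N ^ 2

variable {H} (hH : ∀ i, Escapes (H i))

/-- The box size chosen for the function `H i`, the bound `K` and the stage `k`. -/
noncomputable def Nc (i K k : ℕ) : ℕ := Classical.choose (hH i K k)

lemma Nc_ge (i K k : ℕ) : k ≤ Nc hH i K k := (Classical.choose_spec (hH i K k)).1

lemma Nc_pos (i K k : ℕ) : 0 < Nc hH i K k := (Classical.choose_spec (hH i K k)).2.1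

lemma Nc_card (i K k : ℕ) :
    4 * ((Finset.Icc 1 (Nc hH i K k) ×ˢ Finset.Icc 1 (Nc hH i K k)).filter
      (fun q : ℕ × ℕ => H i q.1 q.2 ≤ K)).card ≤ (Nc hH i K k) ^ 2 :=
  (Classical.choose_spec (hH i K k)).2.2

/-- The places of the phase flips. -/
noncomputable def a : ℕ → ℕ
  | 0 => 0
  | k + 1 => 2 * a k + 1 + (Finset.range (k + 1)).sup (fun i =>
      (Finset.Icc 1 (Nc hH i (a k) k) ×ˢ Finset.Icc 1 (Nc hH i (a k) k)).sup
        (fun q => H i q.1 q.2))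

lemma a_succ (k : ℕ) : 2 * a hH k + 1 ≤ a hH (k + 1) := by
  rw [a]; omega

lemma le_a_succ (k i : ℕ) (hi : i ≤ k) (m n : ℕ) (hm : m ∈ Finset.Icc 1 (Nc hH i (a hH k) k))
    (hn : n ∈ Finset.Icc 1 (Nc hH i (a hH k) k)) : H i m n ≤ a hH (k + 1) := by
  have h1 : H i m n ≤ (Finset.Icc 1 (Nc hH i (a hH k) k) ×ˢ Finset.Icc 1 (Nc hH i (a hH k) k)).sup
        (fun q => H i q.1 q.2) :=
    Finset.le_sup (f := fun q : ℕ × ℕ => H i q.1 q.2) (b := (m, n))
      (Finset.mem_product.mpr ⟨hm, hn⟩)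
  have h2 := Finset.le_sup (s := Finset.range (k + 1)) (f := fun i =>
      (Finset.Icc 1 (Nc hH i (a hH k) k) ×ˢ Finset.Icc 1 (Nc hH i (a hH k) k)).sup
        (fun q => H i q.1 q.2)) (b := i) (Finset.mem_range.mpr (by omega))
  rw [a]
  omega

lemma a_strictMono : StrictMono (a hH) :=
  strictMono_nat_of_lt_succ fun k => by have := a_succ hH k; omega

lemma two_mul_a_le {j k : ℕ} (h : j < k) : 2 * a hH j ≤ a hH k := by
  have h1 : a hH (j + 1) ≤ a hH k := (a_strictMono hH).monotone h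
  have := a_succ hH j
  omega

open Classical in
/-- The sequence of phase flips. -/
noncomputable def xi (n : ℕ) : Bool := decide (n ∈ Set.range (a hH))

lemma xi_eq_true (n : ℕ) : xi hH n = true ↔ ∃ k, a hH k = n := by
  simp [xi]

lemma xi_mem : xi hH ∈ Y := by
  intro i j k hij hjk hi hj hk
  rw [xi_eq_true] at hi hj hk
  obtain ⟨i', rfl⟩ := hi
  obtain ⟨j', rfl⟩ := hj
  obtain ⟨k', rfl⟩ := hk
  have h1 : j' < k' := (a_strictMono hH).lt_iff_lt.mp hjk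
  have := two_mul_a_le hH h1
  omega

lemma cnt_xi (k h : ℕ) (h1 : a hH k < h) (h2 : h ≤ a hH (k + 1)) : cnt (xi hH) h = k + 1 := by
  have : (Finset.range h).filter (fun i => xi hH i = true) = (Finset.range (k + 1)).image (a hH) := by
    ext n
    simp only [Finset.mem_filter, Finset.mem_range, xi_eq_true, Finset.mem_image]
    constructor
    · rintro ⟨hn, j, rfl⟩
      refine ⟨j, ?_, rfl⟩
      have : a hH j < a hH (k + 1) := by omega
      have := (a_strictMono hH).lt_iff_lt.mp this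
      omega
    · rintro ⟨j, hj, rfl⟩
      refine ⟨?_, j, rfl⟩
      have : a hH j ≤ a hH k := (a_strictMono hH).monotone (by omega)
      omega
  rw [cnt, this, Finset.card_image_of_injective _ (a_strictMono hH).injective, Finset.card_range]

/-- The bad point. -/
noncomputable def x0 (g : ℕ) : X g := (⟨xi hH, xi_mem hH⟩, 0)

/-- The test function. -/
noncomputable def F0 (g : ℕ) : C(X g, ℂ) where
  toFun x := if x.2 = 0 then 1 else 0
  continuous_toFun := by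
    have h : Continuous (fun j : ZMod g => if j = 0 then (1 : ℂ) else 0) :=
      continuous_of_discreteTopology
    exact h.comp continuous_snd

lemma F0_value (g : ℕ) (k h : ℕ) (h1 : a hH k < h) (h2 : h ≤ a hH (k + 1)) :
    F0 g ((T g)^[h] (x0 hH g)) = if ((h : ZMod g) + (k + 1 : ℕ) = 0) then 1 else 0 := by
  rw [T_iter]
  simp only [F0, ContinuousMap.coe_mk, x0, zero_add]
  rw [cnt_xi hH k h h1 h2]

lemma F0_norm_sub (g : ℕ) (x : X g) (v : ℂ) (hv : v = 0 ∨ v = 1) : ‖F0 g x - v‖ ≤ 1 := by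
  simp only [F0, ContinuousMap.coe_mk]
  rcases hv with rfl | rfl <;> split_ifs <;> simp

/-- The averages. -/
noncomputable def avg {Z : Type*} (T : Z → Z) (F : Z → ℂ) (x : Z) (h : ℕ → ℕ → ℕ) (N : ℕ) : ℂ :=
  (∑ m ∈ Finset.Icc 1 N, ∑ n ∈ Finset.Icc 1 N, F (T^[h m n] x)) / (N : ℂ) ^ 2

lemma avg_close (g i k : ℕ) (hi : i ≤ k) (e : ZMod g)
    (he : ∀ m n : ℕ, 1 ≤ m → 1 ≤ n → (H i m n : ZMod g) = e) (v : ℂ)
    (hv : v = if e + ((k + 1 : ℕ) : ZMod g) = 0 then 1 else 0) :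
    ‖avg (T g) (F0 g) (x0 hH g) (H i) (Nc hH i (a hH k) k) - v‖ ≤ 1 / 4 := by
  classical
  set N := Nc hH i (a hH k) k with hN
  have hNpos : 0 < N := Nc_pos hH i (a hH k) k
  have hcard : 4 * ((Finset.Icc 1 N ×ˢ Finset.Icc 1 N).filter
      (fun q : ℕ × ℕ => H i q.1 q.2 ≤ a hH k)).card ≤ N ^ 2 := Nc_card hH i (a hH k) k
  have hv01 : v = 0 ∨ v = 1 := by
    rw [hv]; split_ifs <;> simp
  have hNC : (N : ℂ) ≠ 0 := by exact_mod_cast hNpos.ne'
  have h1 : avg (T g) (F0 g) (x0 hH g) (H i) N - v =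
      (∑ q ∈ Finset.Icc 1 N ×ˢ Finset.Icc 1 N, (F0 g ((T g)^[H i q.1 q.2] (x0 hH g)) - v)) /
        (N : ℂ) ^ 2 := by
    rw [avg, Finset.sum_sub_distrib, Finset.sum_product, Finset.sum_const, Finset.card_product,
      Nat.card_Icc]
    simp only [Nat.add_sub_cancel, nsmul_eq_mul, Nat.cast_mul]
    field_simp
  have h2 : ∀ q ∈ Finset.Icc 1 N ×ˢ Finset.Icc 1 N,
      ‖F0 g ((T g)^[H i q.1 q.2] (x0 hH g)) - v‖ ≤ if H i q.1 q.2 ≤ a hH k then 1 else 0 := by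
    intro q hq
    rw [Finset.mem_product] at hq
    split_ifs with hle
    · exact F0_norm_sub g _ v hv01
    · have hlt : a hH k < H i q.1 q.2 := by omega
      have hle2 : H i q.1 q.2 ≤ a hH (k + 1) := le_a_succ hH k i hi q.1 q.2 hq.1 hq.2
      rw [F0_value hH g k _ hlt hle2, he q.1 q.2 (Finset.mem_Icc.mp hq.1).1
        (Finset.mem_Icc.mp hq.2).1, hv]
      simp
  have h3 : ‖∑ q ∈ Finset.Icc 1 N ×ˢ Finset.Icc 1 N,
      (F0 g ((T g)^[H i q.1 q.2] (x0 hH g)) - v)‖ ≤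
      (((Finset.Icc 1 N ×ˢ Finset.Icc 1 N).filter
      (fun q : ℕ × ℕ => H i q.1 q.2 ≤ a hH k)).card : ℝ) := by
    refine (norm_sum_le_of_le _ h2).trans ?_
    rw [Finset.card_filter]
    push_cast
    exact le_rfl
  rw [h1, norm_div, norm_pow, Complex.norm_natCast, div_le_iff₀ (by positivity)]
  have h4 : (4 : ℝ) * (((Finset.Icc 1 N ×ˢ Finset.Icc 1 N).filter
      (fun q : ℕ × ℕ => H i q.1 q.2 ≤ a hH k)).card : ℝ) ≤ (N : ℝ) ^ 2 := by
    exact_mod_cast hcard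
  linarith

/-- The averages along `H i` diverge. -/
theorem avg_diverges (g : ℕ) (hg : 2 ≤ g) (i : ℕ) (e : ZMod g)
    (he : ∀ m n : ℕ, 1 ≤ m → 1 ≤ n → (H i m n : ZMod g) = e) :
    ¬ ∃ L : ℂ, Tendsto (fun N => avg (T g) (F0 g) (x0 hH g) (H i) N) atTop (𝓝 L) := by
  rintro ⟨L, hL⟩
  have : NeZero g := ⟨by omega⟩
  have : Fact (1 < g) := ⟨by omega⟩
  rw [Metric.tendsto_atTop] at hL
  obtain ⟨N0, hN0⟩ := hL (1 / 8) (by norm_num)
  -- two stages
  set r : ℕ := (-e).val with hr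
  set k1 : ℕ := r + g * (N0 + i + 1) - 1 with hk1
  have hge : N0 + i + 1 ≤ g * (N0 + i + 1) := Nat.le_mul_of_pos_left _ (by omega)
  have hk1' : k1 + 1 = r + g * (N0 + i + 1) := by omega
  have hz1 : e + ((k1 + 1 : ℕ) : ZMod g) = 0 := by
    rw [hk1']
    push_cast
    simp [hr]
  have hz2 : e + ((k1 + 1 + 1 : ℕ) : ZMod g) ≠ 0 := by
    have : e + ((k1 + 1 + 1 : ℕ) : ZMod g) = (e + ((k1 + 1 : ℕ) : ZMod g)) + 1 := by
      push_cast; ring
    rw [this, hz1, zero_add]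
    exact one_ne_zero
  have c1 := avg_close hH g i k1 (by omega) e he 1 (by rw [if_pos hz1])
  have c2 := avg_close hH g i (k1 + 1) (by omega) e he 0 (by rw [if_neg hz2])
  have d1 := hN0 (Nc hH i (a hH k1) k1) (by have := Nc_ge hH i (a hH k1) k1; omega)
  have d2 := hN0 (Nc hH i (a hH (k1 + 1)) (k1 + 1))
    (by have := Nc_ge hH i (a hH (k1 + 1)) (k1 + 1); omega)
  rw [dist_eq_norm] at d1 d2
  set A1 := avg (T g) (F0 g) (x0 hH g) (H i) (Nc hH i (a hH k1) k1)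
  set A2 := avg (T g) (F0 g) (x0 hH g) (H i) (Nc hH i (a hH (k1 + 1)) (k1 + 1))
  have htri : (1 : ℝ) ≤ ‖A1 - 1‖ + ‖A1 - L‖ + ‖A2 - L‖ + ‖A2 - 0‖ := by
    have h1 : (1 : ℂ) = -(A1 - 1) + (A1 - L) + -(A2 - L) + (A2 - 0) := by ring
    calc (1 : ℝ) = ‖(1 : ℂ)‖ := by simp
      _ = ‖-(A1 - 1) + (A1 - L) + -(A2 - L) + (A2 - 0)‖ := by rw [← h1]
      _ ≤ ‖-(A1 - 1)‖ + ‖A1 - L‖ + ‖-(A2 - L)‖ + ‖A2 - 0‖ := norm_add₄_le
      _ = _ := by rw [norm_neg, norm_neg]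
  linarith

end Construction

end Pool.Agent.Helper75_OmegaForms
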