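import Mathlib

/-!
# The sum of `1 / N P` over prime ideals of degree one diverges
-/

open NumberField Ideal Filter Topology nonZeroDivisors

namespace Pool.Agent.Helper75_OmegaForms

variable (K : Type*) [Field K] [NumberField K]

lemma finite_le (s : ℕ) : {I : Ideal (𝓞 K) | I ≠ ⊥ ∧ absNorm I ≤ s}.Finite :=
  (Ideal.finite_setOfPred_absNorm_le s).subset fun _ h => h.2

/-- The nonzero ideals of norm at most `s`. -/
noncomputable def II (s : ℕ) : Finset (Ideal (𝓞 K)) := (finite_le K s).toFinset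

lemma mem_II {s : ℕ} {I : Ideal (𝓞 K)} : I ∈ II K s ↔ I ≠ ⊥ ∧ absNorm I ≤ s := by
  simp [II]

lemma card_II (s : ℕ) :
    Nat.card {I : (Ideal (𝓞 K))⁰ // absNorm (I : Ideal (𝓞 K)) ≤ s} = (II K s).card := by
  have e : {I : (Ideal (𝓞 K))⁰ // absNorm (I : Ideal (𝓞 K)) ≤ s} ≃ II K s :=
    { toFun := fun I => ⟨I.1.1, (mem_II K).mpr ⟨mem_nonZeroDivisors_iff_ne_zero.mp I.1.2, I.2⟩⟩
      invFun := fun I => ⟨⟨I.1, mem_nonZeroDivisors_iff_ne_zero.mpr ((mem_II K).mp I.2).1⟩,
        ((mem_II K).mp I.2).2⟩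
      left_inv := fun I => rfl
      right_inv := fun I => rfl }
  rw [Nat.card_congr e, Nat.card_eq_fintype_card, Fintype.card_coe]

lemma card_bounds : ∃ c C : ℝ, 0 < c ∧ 0 < C ∧ (∀ s : ℕ, ((II K s).card : ℝ) ≤ C * s) ∧
    (∀ᶠ s : ℕ in atTop, c * s ≤ (II K s).card) := by
  have h := (Ideal.tendsto_norm_le_div_atTop₀ K).comp tendsto_natCast_atTop_atTop
  have hpos := dedekindZeta_residue_pos K
  rw [dedekindZeta_residue_def] at hpos
  set κ := ((2 ^ InfinitePlace.nrRealPlaces K * (2 * Real.pi) ^ InfinitePlace.nrComplexPlaces K *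
    Units.regulator K * classNumber K) / (Units.torsionOrder K * Real.sqrt |discr K|)) with hκ
  have h1 : ∀ᶠ s : ℕ in atTop, κ / 2 < ((II K s).card : ℝ) / s := by
    filter_upwards [h.eventually (lt_mem_nhds (show κ / 2 < κ by linarith))] with s hs
    simpa only [Function.comp_apply, Nat.cast_le, card_II] using hs
  have h2 : ∀ᶠ s : ℕ in atTop, ((II K s).card : ℝ) / s < 2 * κ := by
    filter_upwards [h.eventually (gt_mem_nhds (show κ < 2 * κ by linarith))] with s hs
    simpa only [Function.comp_apply, Nat.cast_le, card_II] using hs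
  obtain ⟨s0, hs0⟩ := eventually_atTop.mp h2
  refine ⟨κ / 2, 2 * κ + (II K (s0 + 1)).card, by linarith, by positivity, ?_, ?_⟩
  · intro s
    rcases Nat.eq_zero_or_pos s with rfl | hs
    · have : II K 0 = ∅ := by
        ext I
        simp only [mem_II, nonpos_iff_eq_zero, Finset.notMem_empty, iff_false, not_and]
        intro h hn
        exact h (absNorm_eq_zero_iff.mp hn)
      simp [this]
    · have hs' : (0 : ℝ) < s := by exact_mod_cast hs
      have hs1 : (1 : ℝ) ≤ s := by exact_mod_cast hs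
      rcases le_or_gt s0 s with h3 | h3
      · have := hs0 s h3
        rw [div_lt_iff₀ hs'] at this
        have h4 : (0 : ℝ) ≤ (II K (s0 + 1)).card * s := by positivity
        nlinarith
      · have hsub : II K s ⊆ II K (s0 + 1) := by
          intro I hI
          rw [mem_II] at hI ⊢
          exact ⟨hI.1, by omega⟩
        have h5 : ((II K s).card : ℝ) ≤ (II K (s0 + 1)).card := by
          exact_mod_cast Finset.card_le_card hsub
        have h6 : ((II K (s0 + 1)).card : ℝ) ≤ (II K (s0 + 1)).card * s := by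
          have : (0 : ℝ) ≤ (II K (s0 + 1)).card := by positivity
          nlinarith
        have h7 : 0 ≤ 2 * κ * s := by positivity
        nlinarith
  · filter_upwards [h1, eventually_gt_atTop 0] with s hs hs2
    have hs' : (0 : ℝ) < s := by exact_mod_cast hs2
    rw [lt_div_iff₀ hs'] at hs
    exact hs.le

lemma dvd_absNorm_of_mem (p : ℕ) (hp : p.Prime) (P : Ideal (𝓞 K)) (hP : P.IsPrime)
    (hpP : (p : 𝓞 K) ∈ P) : p ∣ absNorm P := by
  have h1 : P ∣ Ideal.span {(p : 𝓞 K)} := by
    rw [Ideal.dvd_span_singleton]; exact hpP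
  have h2 : absNorm P ∣ p ^ Module.finrank ℤ (𝓞 K) := by
    rw [← Ideal.absNorm_span_natCast]
    exact map_dvd absNorm h1
  obtain ⟨m, _, hm⟩ := (Nat.dvd_prime_pow hp).mp h2
  have hm0 : m ≠ 0 := by
    rintro rfl
    rw [pow_zero, absNorm_eq_one_iff] at hm
    exact hP.ne_top hm
  rw [hm]
  exact dvd_pow_self p hm0

/-- At most `finrank` primes contain a given prime number. -/
lemma card_above_le (p : ℕ) (hp : p.Prime) (T : Finset (Ideal (𝓞 K)))
    (hT : ∀ P ∈ T, P.IsPrime ∧ P ≠ ⊥ ∧ (p : 𝓞 K) ∈ P) :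
    T.card ≤ Module.finrank ℤ (𝓞 K) := by
  classical
  have hprime : ∀ P ∈ T, Prime P :=
    fun P hP => (Ideal.prime_iff_isPrime (hT P hP).2.1).mpr (hT P hP).1
  have hdvd : ∀ P ∈ T, P ∣ Ideal.span {(p : 𝓞 K)} := by
    intro P hP
    rw [Ideal.dvd_span_singleton]
    exact (hT P hP).2.2
  have h1 := Finset.prod_primes_dvd _ hprime hdvd
  have h2 : absNorm (∏ P ∈ T, P) ∣ p ^ Module.finrank ℤ (𝓞 K) := by
    rw [← Ideal.absNorm_span_natCast]
    exact map_dvd absNorm h1
  have h4 : p ^ T.card ∣ absNorm (∏ P ∈ T, P) := by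
    rw [map_prod, ← Finset.prod_const]
    exact Finset.prod_dvd_prod_of_dvd _ _
      fun P hP => dvd_absNorm_of_mem K p hp P (hT P hP).1 (hT P hP).2.2
  exact (Nat.pow_dvd_pow_iff_le_right hp.one_lt).mp (h4.trans h2)

/-- The weight `1 / N P` of a nonzero prime ideal. -/
noncomputable def wt (P : Ideal (𝓞 K)) : ℝ :=
  open Classical in if P.IsPrime ∧ P ≠ ⊥ then 1 / (absNorm P : ℝ) else 0

lemma wt_nonneg (P : Ideal (𝓞 K)) : 0 ≤ wt K P := by
  unfold wt; split_ifs <;> positivity

/-- The primes that are not of degree one contribute a bounded amount. -/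
lemma sum_wt_le (B : ℝ) (hB : ∀ T : Finset (Ideal (𝓞 K)),
    (∀ P ∈ T, P.IsPrime ∧ P ≠ ⊥ ∧ (absNorm P).Prime) → ∑ P ∈ T, 1 / (absNorm P : ℝ) ≤ B)
    (T : Finset (Ideal (𝓞 K))) :
    ∑ P ∈ T, wt K P ≤ B + Module.finrank ℤ (𝓞 K) * ∑' n : ℕ, 1 / (n : ℝ) ^ 2 := by
  classical
  have hsummable : Summable (fun n : ℕ => 1 / (n : ℝ) ^ 2) :=
    Real.summable_one_div_nat_pow.mpr (by norm_num)
  set T0 := T.filter (fun P => P.IsPrime ∧ P ≠ ⊥) with hT0
  have h0 : ∑ P ∈ T, wt K P = ∑ P ∈ T0, 1 / (absNorm P : ℝ) := by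
    rw [hT0, Finset.sum_filter]
    rfl
  set T1 := T0.filter (fun P => (absNorm P).Prime) with hT1
  set T2 := T0.filter (fun P => ¬ (absNorm P).Prime) with hT2
  have h1 : ∑ P ∈ T0, 1 / (absNorm P : ℝ) =
      ∑ P ∈ T1, 1 / (absNorm P : ℝ) + ∑ P ∈ T2, 1 / (absNorm P : ℝ) :=
    (Finset.sum_filter_add_sum_filter_not _ _ _).symm
  have h2 : ∑ P ∈ T1, 1 / (absNorm P : ℝ) ≤ B := by
    apply hB
    intro P hP
    rw [hT1, Finset.mem_filter, hT0, Finset.mem_filter] at hP
    exact ⟨hP.1.2.1, hP.1.2.2, hP.2⟩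
  -- structure of the primes in T2
  have h3 : ∀ P ∈ T2, ((absNorm P).minFac).Prime ∧ ((absNorm P).minFac : 𝓞 K) ∈ P ∧
      1 / (absNorm P : ℝ) ≤ 1 / ((absNorm P).minFac : ℝ) ^ 2 := by
    intro P hP
    rw [hT2, Finset.mem_filter, hT0, Finset.mem_filter] at hP
    have hPp := hP.1.2.1
    have hPb := hP.1.2.2
    have : P.IsMaximal := hPp.isMaximal hPb
    obtain ⟨p, n, hn, hpP, hp, hnorm⟩ := Ideal.exists_prime_and_absNorm_eq_pow P
    have hmf : (absNorm P).minFac = p := by
      rw [hnorm, Nat.Prime.pow_minFac hp hn.ne']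
    have hn2 : 2 ≤ n := by
      by_contra hlt
      have : n = 1 := by omega
      rw [this, pow_one] at hnorm
      exact hP.2 (hnorm ▸ hp)
    refine ⟨hmf ▸ hp, hmf ▸ hpP, ?_⟩
    rw [hmf, hnorm]
    push_cast
    apply one_div_le_one_div_of_le
    · have := hp.pos; positivity
    · exact pow_le_pow_right₀ (by exact_mod_cast hp.one_lt.le) hn2
  have h4 : ∑ P ∈ T2, 1 / (absNorm P : ℝ) ≤
      Module.finrank ℤ (𝓞 K) * ∑' n : ℕ, 1 / (n : ℝ) ^ 2 := by
    calc ∑ P ∈ T2, 1 / (absNorm P : ℝ) ≤ ∑ P ∈ T2, 1 / ((absNorm P).minFac : ℝ) ^ 2 :=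
          Finset.sum_le_sum fun P hP => (h3 P hP).2.2
      _ = ∑ p ∈ T2.image (fun P => (absNorm P).minFac),
            ∑ P ∈ T2 with (absNorm P).minFac = p, 1 / ((absNorm P).minFac : ℝ) ^ 2 :=
          (Finset.sum_fiberwise_of_maps_to (fun P hP => Finset.mem_image_of_mem _ hP) _).symm
      _ ≤ ∑ p ∈ T2.image (fun P => (absNorm P).minFac),
            (Module.finrank ℤ (𝓞 K) : ℝ) * (1 / (p : ℝ) ^ 2) := by
          refine Finset.sum_le_sum fun p hp => ?_
          obtain ⟨P0, hP0, rfl⟩ := Finset.mem_image.mp hp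
          have hpp := (h3 P0 hP0).1
          have hcard := card_above_le K _ hpp (T2.filter
            (fun P => (absNorm P).minFac = (absNorm P0).minFac)) (by
              intro P hP
              rw [Finset.mem_filter] at hP
              have hP2 := hP.1
              rw [hT2, Finset.mem_filter, hT0, Finset.mem_filter] at hP2
              exact ⟨hP2.1.2.1, hP2.1.2.2, hP.2 ▸ (h3 P hP.1).2.1⟩)
          rw [Finset.sum_congr rfl (g := fun _ => 1 / ((absNorm P0).minFac : ℝ) ^ 2) (by
            intro P hP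
            rw [Finset.mem_filter] at hP
            rw [hP.2]), Finset.sum_const, nsmul_eq_mul]
          gcongr
      _ = (Module.finrank ℤ (𝓞 K) : ℝ) *
            ∑ p ∈ T2.image (fun P => (absNorm P).minFac), (1 / (p : ℝ) ^ 2) := by
          rw [Finset.mul_sum]
      _ ≤ _ := by
          gcongr
          exact hsummable.sum_le_tsum _ (fun n _ => by positivity)
  rw [h0, h1]
  linarith

/-- The nonzero ideals of norm at most `2 ^ t` all of whose prime factors lie in `T`. -/
lemma card_smooth_le (T : Finset (Ideal (𝓞 K))) (t : ℕ) (A : Finset (Ideal (𝓞 K)))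
    (hA : ∀ I ∈ A, I ≠ ⊥ ∧ absNorm I ≤ 2 ^ t ∧ ∀ P : Ideal (𝓞 K), P.IsPrime → P ≠ ⊥ → P ∣ I → P ∈ T) :
    A.card ≤ (t + 1) ^ T.card := by
  classical
  set V : Finset (T → ℕ) := Fintype.piFinset (fun _ => Finset.range (t + 1)) with hV
  have hsub : A ⊆ V.image (fun v => ∏ P : T, (P : Ideal (𝓞 K)) ^ v P) := by
    intro I hI
    obtain ⟨hI0, hIn, hIT⟩ := hA I hI
    rw [Finset.mem_image]
    refine ⟨fun P => (UniqueFactorizationMonoid.normalizedFactors I).count (P : Ideal (𝓞 K)), ?_, ?_⟩
    · rw [hV, Fintype.mem_piFinset]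
      intro P
      rw [Finset.mem_range, Nat.lt_succ_iff]
      by_cases hmem : (P : Ideal (𝓞 K)) ∈ UniqueFactorizationMonoid.normalizedFactors I
      · have hPprime : Prime (P : Ideal (𝓞 K)) :=
          UniqueFactorizationMonoid.prime_of_normalized_factor _ hmem
        have hne1 : absNorm (P : Ideal (𝓞 K)) ≠ 1 := by
          rw [Ne, absNorm_eq_one_iff]
          exact (Ideal.isPrime_of_prime hPprime).ne_top
        have hne0 : absNorm (P : Ideal (𝓞 K)) ≠ 0 := by
          rw [Ne, absNorm_eq_zero_iff]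
          exact hPprime.ne_zero
        have h2 : 2 ≤ absNorm (P : Ideal (𝓞 K)) := by omega
        have hdvd : (P : Ideal (𝓞 K)) ^ ((UniqueFactorizationMonoid.normalizedFactors I).count
            (P : Ideal (𝓞 K))) ∣ I := by
          conv_rhs => rw [← Ideal.prod_normalizedFactors_eq_self hI0]
          rw [← Multiset.prod_replicate]
          exact Multiset.prod_dvd_prod_of_le (Multiset.le_count_iff_replicate_le.mp le_rfl)
        have hle : (absNorm (P : Ideal (𝓞 K))) ^ ((UniqueFactorizationMonoid.normalizedFactors I).count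
            (P : Ideal (𝓞 K))) ≤ absNorm I := by
          rw [← map_pow]
          apply Nat.le_of_dvd
          · exact Nat.pos_of_ne_zero (by rwa [Ne, absNorm_eq_zero_iff])
          · exact map_dvd absNorm hdvd
        have h5 : 2 ^ ((UniqueFactorizationMonoid.normalizedFactors I).count
            (P : Ideal (𝓞 K))) ≤ 2 ^ t :=
          (Nat.pow_le_pow_left h2 _).trans (hle.trans hIn)
        exact (Nat.pow_le_pow_iff_right (by norm_num)).mp h5
      · rw [Multiset.count_eq_zero_of_notMem hmem]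
        exact Nat.zero_le _
    · have h6 : (UniqueFactorizationMonoid.normalizedFactors I).toFinset ⊆ T := by
        intro P hP
        rw [Multiset.mem_toFinset] at hP
        have hPprime : Prime P := UniqueFactorizationMonoid.prime_of_normalized_factor _ hP
        exact hIT P (Ideal.isPrime_of_prime hPprime) hPprime.ne_zero
          (UniqueFactorizationMonoid.dvd_of_mem_normalizedFactors hP)
      conv_rhs => rw [← Ideal.prod_normalizedFactors_eq_self hI0,
        Finset.prod_multiset_count_of_subset _ T h6]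
      exact Finset.prod_coe_sort T (fun P => P ^ (UniqueFactorizationMonoid.normalizedFactors I).count P)
  calc A.card ≤ (V.image (fun v => ∏ P : T, (P : Ideal (𝓞 K)) ^ v P)).card :=
        Finset.card_le_card hsub
    _ ≤ V.card := Finset.card_image_le
    _ = (t + 1) ^ T.card := by
        rw [hV, Fintype.card_piFinset]
        simp

/-- The sum of `1 / N P` over the prime ideals of degree one diverges. -/
theorem degree_one_diverges (B : ℝ) : ∃ T : Finset (Ideal (𝓞 K)),
    (∀ P ∈ T, P.IsPrime ∧ P ≠ ⊥ ∧ (absNorm P).Prime) ∧ B < ∑ P ∈ T, 1 / (absNorm P : ℝ) := by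
  classical
  by_contra hcon
  push Not at hcon
  have hsum : Summable (wt K) :=
    summable_of_sum_le (fun P => wt_nonneg K P) (sum_wt_le K B hcon)
  obtain ⟨c, C, hc, hC, hup, hlow⟩ := card_bounds K
  obtain ⟨T0, hT0⟩ := summable_iff_vanishing_norm.mp hsum (c / (2 * C)) (by positivity)
  have hlow' : ∀ᶠ t : ℕ in atTop, c * (2 ^ t : ℕ) ≤ (II K (2 ^ t)).card :=
    (tendsto_pow_atTop_atTop_of_one_lt (by norm_num : (1:ℕ) < 2)).eventually hlow
  have hpoly : ∀ᶠ t : ℕ in atTop, ((t : ℝ) + 1) ^ T0.card < (c / 2) * 2 ^ t := by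
    have h1 : Tendsto (fun n : ℕ => (n : ℝ) ^ T0.card / 2 ^ n) atTop (𝓝 0) :=
      tendsto_pow_const_div_const_pow_of_one_lt T0.card (by norm_num)
    have h2 := (h1.comp (tendsto_add_atTop_nat 1)).eventually
      (gt_mem_nhds (show (0 : ℝ) < c / 4 by positivity))
    filter_upwards [h2] with t ht
    simp only [Function.comp_apply, Nat.cast_add, Nat.cast_one] at ht
    rw [div_lt_iff₀ (by positivity), pow_succ] at ht
    linarith
  obtain ⟨t, ht1, ht2⟩ := (hlow'.and hpoly).exists
  set s : ℕ := 2 ^ t with hs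
  set Q := (II K s).filter (fun P => P.IsPrime ∧ P ∉ T0) with hQ
  set A := (II K s).filter (fun I => ∀ P : Ideal (𝓞 K), P.IsPrime → P ≠ ⊥ → P ∣ I → P ∈ T0) with hA
  have hcover : II K s ⊆ A ∪ Q.biUnion (fun P => (II K (s / absNorm P)).image (fun J => P * J)) := by
    intro I hI
    rw [Finset.mem_union]
    by_cases hIA : ∀ P : Ideal (𝓞 K), P.IsPrime → P ≠ ⊥ → P ∣ I → P ∈ T0
    · left
      rw [hA, Finset.mem_filter]
      exact ⟨hI, hIA⟩
    · right
      push Not at hIA
      obtain ⟨P, hP, hPb, hPI, hPT⟩ := hIA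
      obtain ⟨J, rfl⟩ := hPI
      rw [mem_II] at hI
      obtain ⟨hne, hle⟩ := hI
      have hJ : J ≠ ⊥ := by
        rintro rfl
        exact hne (by simp)
      have hPpos : 0 < absNorm P := Nat.pos_of_ne_zero (by rwa [Ne, absNorm_eq_zero_iff])
      have hJpos : 0 < absNorm J := Nat.pos_of_ne_zero (by rwa [Ne, absNorm_eq_zero_iff])
      rw [map_mul] at hle
      rw [Finset.mem_biUnion]
      refine ⟨P, ?_, ?_⟩
      · rw [hQ, Finset.mem_filter, mem_II]
        exact ⟨⟨hPb, le_trans (Nat.le_mul_of_pos_right _ hJpos) hle⟩, hP, hPT⟩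
      · rw [Finset.mem_image]
        refine ⟨J, ?_, rfl⟩
        rw [mem_II]
        refine ⟨hJ, ?_⟩
        rw [Nat.le_div_iff_mul_le hPpos, mul_comm]
        exact hle
  have hAcard : A.card ≤ (t + 1) ^ T0.card := by
    apply card_smooth_le K T0 t A
    intro I hI
    rw [hA, Finset.mem_filter, mem_II] at hI
    exact ⟨hI.1.1, hI.1.2, hI.2⟩
  have hQsum : ∑ P ∈ Q, wt K P < c / (2 * C) := by
    have hdisj : Disjoint Q T0 := by
      rw [Finset.disjoint_left]
      intro P hP
      rw [hQ, Finset.mem_filter] at hP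
      exact hP.2.2
    have := hT0 Q hdisj
    rw [Real.norm_eq_abs] at this
    exact lt_of_abs_lt this
  have hQcard : ((Q.biUnion (fun P => (II K (s / absNorm P)).image (fun J => P * J))).card : ℝ) ≤
      C * s * ∑ P ∈ Q, wt K P := by
    calc ((Q.biUnion (fun P => (II K (s / absNorm P)).image (fun J => P * J))).card : ℝ)
        ≤ ((∑ P ∈ Q, ((II K (s / absNorm P)).image (fun J => P * J)).card : ℕ) : ℝ) := by
          exact_mod_cast Finset.card_biUnion_le
      _ ≤ ∑ P ∈ Q, ((II K (s / absNorm P)).card : ℝ) := by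
          push_cast
          refine Finset.sum_le_sum fun P _ => ?_
          exact_mod_cast Finset.card_image_le
      _ ≤ ∑ P ∈ Q, C * s * wt K P := by
          refine Finset.sum_le_sum fun P hP => ?_
          rw [hQ, Finset.mem_filter, mem_II] at hP
          have hw : wt K P = 1 / (absNorm P : ℝ) := by
            unfold wt
            rw [if_pos ⟨hP.2.1, hP.1.1⟩]
          rw [hw]
          refine (hup _).trans ?_
          rw [mul_assoc]
          refine mul_le_mul_of_nonneg_left ?_ hC.le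
          rw [mul_one_div]
          exact Nat.cast_div_le
      _ = C * s * ∑ P ∈ Q, wt K P := by rw [Finset.mul_sum]
  have htotal : ((II K s).card : ℝ) ≤ ((t : ℝ) + 1) ^ T0.card + C * s * ∑ P ∈ Q, wt K P := by
    have h1 : (II K s).card ≤ A.card +
        (Q.biUnion (fun P => (II K (s / absNorm P)).image (fun J => P * J))).card :=
      (Finset.card_le_card hcover).trans (Finset.card_union_le _ _)
    have h2 : ((II K s).card : ℝ) ≤ (A.card : ℝ) +
        ((Q.biUnion (fun P => (II K (s / absNorm P)).image (fun J => P * J))).card : ℝ) := by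
      exact_mod_cast h1
    have h3 : (A.card : ℝ) ≤ ((t : ℝ) + 1) ^ T0.card := by exact_mod_cast hAcard
    linarith
  have hspos : (0 : ℝ) < s := by
    rw [hs]; push_cast; positivity
  have h6 : C * s * ∑ P ∈ Q, wt K P ≤ c / 2 * s := by
    calc C * s * ∑ P ∈ Q, wt K P ≤ C * s * (c / (2 * C)) :=
          mul_le_mul_of_nonneg_left hQsum.le (by positivity)
      _ = c / 2 * s := by field_simp
  have h7 : (s : ℝ) = 2 ^ t := by rw [hs]; push_cast; rfl
  rw [← h7] at ht2
  linarith

end Pool.Agent.Helper75_OmegaForms
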