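import Mathlib
import Pool.Agent.Helper75_OmegaForms.Ideals

/-!
# Primes modulo which an integer polynomial has a root
-/

open NumberField Ideal Filter Topology Polynomial

namespace Pool.Agent.Helper75_OmegaForms

lemma exists_root_mod (K : Type*) [Field K] [NumberField K] (f : ℤ[X]) (θ : K)
    (hθ : aeval θ f = 0) : ∃ a : ℤ, a ≠ 0 ∧ ∀ P : Ideal (𝓞 K), P.IsPrime → (absNorm P).Prime →
      ¬ ((absNorm P : ℤ) ∣ a) → ∃ r : ℤ, (absNorm P : ℤ) ∣ f.eval r := by
  have halg : IsAlgebraic ℤ θ := by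
    have : IsAlgebraic ℚ θ := Algebra.IsAlgebraic.isAlgebraic θ
    exact (IsFractionRing.isAlgebraic_iff ℤ ℚ K).mpr this
  obtain ⟨a, ha, hint⟩ := halg.exists_integral_multiple
  refine ⟨a, ha, ?_⟩
  intro P hP hprime hndvd
  set p := absNorm P with hp
  have hpf : Fact p.Prime := ⟨hprime⟩
  let α : 𝓞 K := ⟨a • θ, hint⟩
  have hα : algebraMap (𝓞 K) K α = algebraMap ℤ K a * θ := by
    show a • θ = _
    rw [Algebra.smul_def]
  have h0 : aeval α (scaleRoots f a) = 0 := by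
    have h1 : aeval (algebraMap (𝓞 K) K α) (scaleRoots f a) = 0 := by
      rw [hα]
      exact scaleRoots_aeval_eq_zero hθ
    rw [aeval_algebraMap_apply] at h1
    exact (FaithfulSMul.algebraMap_injective (𝓞 K) K) (by rw [h1, map_zero])
  have hcard : Nat.card (𝓞 K ⧸ P) = p := by
    rw [hp, Ideal.absNorm_apply, Submodule.cardQuot_apply]
  have hfin : Finite (𝓞 K ⧸ P) := Nat.finite_of_card_ne_zero (by rw [hcard]; exact hprime.ne_zero)
  have hft : Fintype (𝓞 K ⧸ P) := Fintype.ofFinite _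
  have hcard' : Fintype.card (𝓞 K ⧸ P) = p := by rw [← Nat.card_eq_fintype_card]; exact hcard
  let φ : 𝓞 K ⧸ P ≃+* ZMod p := (ZMod.ringEquivOfPrime (𝓞 K ⧸ P) hprime hcard').symm
  let ψ : 𝓞 K →+* ZMod p := φ.toRingHom.comp (Ideal.Quotient.mk P)
  have h2 : eval₂ (Int.castRingHom (ZMod p)) (ψ α) (scaleRoots f a) = 0 := by
    have h3 := congrArg ψ h0
    rw [aeval_def, hom_eval₂, map_zero] at h3
    rw [← h3]
    congr 1
    exact (RingHom.eq_intCast' _).symm
  have ha' : (a : ZMod p) ≠ 0 := by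
    rw [Ne, ZMod.intCast_zmod_eq_zero_iff_dvd]
    exact hndvd
  have h4 : ψ α = (Int.castRingHom (ZMod p)) a * ((a : ZMod p)⁻¹ * ψ α) := by
    rw [Int.coe_castRingHom, ← mul_assoc, mul_inv_cancel₀ ha', one_mul]
  rw [h4, scaleRoots_eval₂_mul] at h2
  have h5 : eval₂ (Int.castRingHom (ZMod p)) ((a : ZMod p)⁻¹ * ψ α) f = 0 := by
    rcases mul_eq_zero.mp h2 with h | h
    · exact absurd (eq_zero_of_pow_eq_zero h) ha'
    · exact h
  refine ⟨(((a : ZMod p)⁻¹ * ψ α).val : ℤ), ?_⟩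
  rw [← ZMod.intCast_zmod_eq_zero_iff_dvd]
  have h6 : ((eval (((a : ZMod p)⁻¹ * ψ α).val : ℤ) f : ℤ) : ZMod p) =
      eval₂ (Int.castRingHom (ZMod p)) ((a : ZMod p)⁻¹ * ψ α) f := by
    have := Polynomial.hom_eval₂ f (RingHom.id ℤ) (Int.castRingHom (ZMod p)) (((a : ZMod p)⁻¹ * ψ α).val : ℤ)
    simp only [eval₂_id, RingHomCompTriple.comp_eq] at this
    have h7 : ((Int.castRingHom (ZMod p)) (eval (((a : ZMod p)⁻¹ * ψ α).val : ℤ) f)) =
        ((eval (((a : ZMod p)⁻¹ * ψ α).val : ℤ) f : ℤ) : ZMod p) := rfl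
    rw [← h7, this]
    simp
  rw [h6, h5]

/-- A polynomial of positive degree has a root modulo `p` for a set of primes with divergent
sum of reciprocals. -/
theorem primes_with_root (f : ℤ[X]) (hf : 0 < f.natDegree) (B : ℝ) :
    ∃ S : Finset ℕ, (∀ p ∈ S, p.Prime ∧ ∃ r : ℤ, (p : ℤ) ∣ f.eval r) ∧
      B < ∑ p ∈ S, 1 / (p : ℝ) := by
  classical
  -- a number field with a root
  set fQ : ℚ[X] := f.map (Int.castRingHom ℚ) with hfQ
  have hdeg : fQ.natDegree = f.natDegree := natDegree_map_eq_of_injective (RingHom.injective_int _) f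
  have hne : fQ.natDegree ≠ 0 := by omega
  obtain ⟨q, hq, u, hu⟩ : ∃ q : ℚ[X], Irreducible q ∧ q ∣ fQ :=
    ⟨Polynomial.factor fQ, Polynomial.irreducible_factor fQ,
      Polynomial.factor_dvd_of_natDegree_ne_zero hne⟩
  have hfact : Fact (Irreducible q) := ⟨hq⟩
  let K := AdjoinRoot q
  let θ : K := AdjoinRoot.root q
  have hθ : aeval θ f = 0 := by
    have h1 : aeval θ fQ = 0 := by
      rw [hu, map_mul]
      have : aeval θ q = 0 := by
        rw [aeval_def]
        have he : (algebraMap ℚ K) = AdjoinRoot.of q := Subsingleton.elim _ _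
        rw [he]
        exact AdjoinRoot.eval₂_root q
      rw [this, zero_mul]
    rw [hfQ] at h1
    have h2 : aeval θ (f.map (algebraMap ℤ ℚ)) = aeval θ f := aeval_map_algebraMap ℚ θ f
    rw [← h2]
    exact h1
  obtain ⟨a, ha, hroot⟩ := exists_root_mod K f θ hθ
  set d := Module.finrank ℤ (𝓞 K) with hd
  obtain ⟨T, hT, hTsum⟩ := degree_one_diverges K ((d + 1) * (|B| + |(a : ℝ)|))
  refine ⟨(T.image (fun P => absNorm P)).filter (fun p : ℕ => ¬ ((p : ℤ) ∣ a)), ?_, ?_⟩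
  · intro p hp
    rw [Finset.mem_filter, Finset.mem_image] at hp
    obtain ⟨⟨P, hP, rfl⟩, hndvd⟩ := hp
    exact ⟨(hT P hP).2.2, hroot P (hT P hP).1 (hT P hP).2.2 hndvd⟩
  · have h1 : ∑ P ∈ T, 1 / (absNorm P : ℝ) ≤
        (d : ℝ) * ∑ p ∈ T.image (fun P => absNorm P), 1 / (p : ℝ) := by
      rw [← Finset.sum_fiberwise_of_maps_to (g := fun P => absNorm P)
        (t := T.image (fun P => absNorm P)) (fun P hP => Finset.mem_image_of_mem _ hP),
        Finset.mul_sum]
      refine Finset.sum_le_sum fun p hp => ?_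
      obtain ⟨P0, hP0, rfl⟩ := Finset.mem_image.mp hp
      have hcard := card_above_le K _ (hT P0 hP0).2.2 (T.filter
        (fun P => absNorm P = absNorm P0)) (by
          intro P hP
          rw [Finset.mem_filter] at hP
          refine ⟨(hT P hP.1).1, (hT P hP.1).2.1, ?_⟩
          rw [← hP.2]
          exact Ideal.absNorm_mem P)
      rw [Finset.sum_congr rfl (g := fun _ => 1 / (absNorm P0 : ℝ)) (by
        intro P hP
        rw [Finset.mem_filter] at hP
        rw [hP.2]), Finset.sum_const, nsmul_eq_mul]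
      gcongr
    have h2 : ∑ p ∈ T.image (fun P => absNorm P), 1 / (p : ℝ) =
        ∑ p ∈ (T.image (fun P => absNorm P)).filter (fun p : ℕ => ¬ ((p : ℤ) ∣ a)), 1 / (p : ℝ) +
        ∑ p ∈ (T.image (fun P => absNorm P)).filter (fun p : ℕ => ¬ ¬ ((p : ℤ) ∣ a)), 1 / (p : ℝ) :=
      (Finset.sum_filter_add_sum_filter_not _ _ _).symm
    have h3 : ∑ p ∈ (T.image (fun P => absNorm P)).filter (fun p : ℕ => ¬ ¬ ((p : ℤ) ∣ a)),
        1 / (p : ℝ) ≤ |(a : ℝ)| := by
      have hsub : (T.image (fun P => absNorm P)).filter (fun p : ℕ => ¬ ¬ ((p : ℤ) ∣ a)) ⊆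
          Finset.Icc 1 a.natAbs := by
        intro p hp
        rw [Finset.mem_filter, Finset.mem_image, not_not] at hp
        obtain ⟨⟨P, hP, rfl⟩, hdvd⟩ := hp
        rw [Finset.mem_Icc]
        refine ⟨(hT P hP).2.2.pos, Nat.le_of_dvd (Int.natAbs_pos.mpr ha) ?_⟩
        exact Int.natCast_dvd.mp hdvd
      calc ∑ p ∈ (T.image (fun P => absNorm P)).filter (fun p : ℕ => ¬ ¬ ((p : ℤ) ∣ a)), 1 / (p : ℝ)
          ≤ ∑ p ∈ Finset.Icc 1 a.natAbs, 1 / (p : ℝ) :=
            Finset.sum_le_sum_of_subset_of_nonneg hsub (fun _ _ _ => by positivity)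
        _ ≤ ∑ p ∈ Finset.Icc 1 a.natAbs, (1 : ℝ) := by
            refine Finset.sum_le_sum fun p hp => ?_
            rw [Finset.mem_Icc] at hp
            rw [div_le_one (by exact_mod_cast hp.1)]
            exact_mod_cast hp.1
        _ = |(a : ℝ)| := by
            simp only [Finset.sum_const, Nat.card_Icc, Nat.add_sub_cancel, nsmul_eq_mul, mul_one]
            rw [Nat.cast_natAbs, Int.cast_abs]
    set s1 := ∑ p ∈ (T.image (fun P => absNorm P)).filter (fun p : ℕ => ¬ ((p : ℤ) ∣ a)), 1 / (p : ℝ)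
    have hS1 : 0 ≤ s1 := Finset.sum_nonneg fun _ _ => by positivity
    have h4 : ((d : ℝ) + 1) * (|B| + |(a : ℝ)|) < d * (s1 + |(a : ℝ)|) := by
      calc ((d : ℝ) + 1) * (|B| + |(a : ℝ)|) < _ := hTsum
        _ ≤ _ := h1
        _ ≤ _ := by
          rw [h2]
          gcongr
    by_contra hcon
    push Not at hcon
    have h5 : s1 ≤ |B| := hcon.trans (le_abs_self B)
    have h6 : (d : ℝ) * (s1 + |(a : ℝ)|) ≤ (d + 1) * (|B| + |(a : ℝ)|) := by
      have : (0 : ℝ) ≤ d := by positivity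
      have h7 : 0 ≤ |B| := abs_nonneg B
      have h8 : 0 ≤ |(a : ℝ)| := abs_nonneg _
      nlinarith
    linarith

end Pool.Agent.Helper75_OmegaForms
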