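import Mathlib

/-!
# A second moment bound for the number of congruence conditions satisfied
-/

namespace Pool.Agent.Helper75_OmegaForms

open Finset

/-- Exact count of a residue class in a full period. -/
lemma card_residue (N r : ℕ) (hr : 0 < r) (hd : r ∣ N) (c : ℤ) :
    (((Finset.Icc 1 N).filter (fun m : ℕ => (r : ℤ) ∣ (m : ℤ) - c)).card : ℝ) = N / r := by
  have h1 : ((Finset.Icc 1 N).filter (fun m : ℕ => (r : ℤ) ∣ (m : ℤ) - c)).card =
      ((Finset.Ioc (0 : ℤ) N).filter (fun x : ℤ => x ≡ c [ZMOD r])).card := by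
    refine Finset.card_bij (fun m _ => (m : ℤ)) ?_ ?_ ?_
    · intro m hm
      simp only [Finset.mem_filter, Finset.mem_Icc, Finset.mem_Ioc] at hm ⊢
      refine ⟨⟨by omega, by omega⟩, ?_⟩
      exact (Int.modEq_iff_dvd.mpr hm.2).symm
    · intro a _ b _ h
      exact_mod_cast h
    · intro x hx
      simp only [Finset.mem_filter, Finset.mem_Ioc] at hx
      refine ⟨x.toNat, ?_, by simp; omega⟩
      simp only [Finset.mem_filter, Finset.mem_Icc]
      have hx' : ((x.toNat : ℕ) : ℤ) = x := Int.toNat_of_nonneg (by omega)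
      refine ⟨⟨by omega, by omega⟩, ?_⟩
      rw [hx']
      exact Int.modEq_iff_dvd.mp hx.2.symm
  obtain ⟨k, rfl⟩ := hd
  have h2 := Int.Ioc_filter_modEq_card (0 : ℤ) ((r * k : ℕ) : ℤ) (r := (r : ℤ)) (by exact_mod_cast hr) c
  have hrq : (r : ℚ) ≠ 0 := by exact_mod_cast hr.ne'
  have h3 : ⌊(((r * k : ℕ) : ℤ) - (c : ℚ)) / ((r : ℤ) : ℚ)⌋ - ⌊(((0 : ℤ) : ℚ) - (c : ℚ)) / ((r : ℤ) : ℚ)⌋
      = (k : ℤ) := by
    have h4 : ((((r * k : ℕ) : ℤ) : ℚ) - (c : ℚ)) / ((r : ℤ) : ℚ) =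
        (((0 : ℤ) : ℚ) - (c : ℚ)) / ((r : ℤ) : ℚ) + ((k : ℤ) : ℚ) := by
      push_cast
      field_simp
      ring
    rw [h4, Int.floor_add_intCast]
    ring
  rw [h3] at h2
  have h5 : ((Finset.Ioc (0 : ℤ) ((r * k : ℕ) : ℤ)).filter (fun x : ℤ => x ≡ c [ZMOD r])).card = k := by
    have : (max (k : ℤ) 0) = k := max_eq_left (by positivity)
    rw [this] at h2
    exact_mod_cast h2
  rw [h1, h5]
  have hrr : (r : ℝ) ≠ 0 := by exact_mod_cast hr.ne'
  push_cast
  field_simp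

/-- Exact count of two residue classes for distinct primes. -/
lemma card_residue_two (N p q : ℕ) (hp : p.Prime) (hq : q.Prime) (hpq : p ≠ q) (hd : p * q ∣ N)
    (c e : ℤ) :
    (((Finset.Icc 1 N).filter (fun m : ℕ => (p : ℤ) ∣ (m : ℤ) - c ∧ (q : ℤ) ∣ (m : ℤ) - e)).card : ℝ)
      = N / (p * q) := by
  have hcop : IsCoprime (p : ℤ) (q : ℤ) := by
    rw [Nat.isCoprime_iff_coprime]
    exact (Nat.coprime_primes hp hq).mpr hpq
  obtain ⟨u, v, huv⟩ := hcop
  -- solution of both congruences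
  set w : ℤ := c * (v * q) + e * (u * p) with hw
  have h1 : ∀ m : ℤ, ((p : ℤ) ∣ m - c ∧ (q : ℤ) ∣ m - e) ↔ ((p * q : ℕ) : ℤ) ∣ m - w := by
    intro m
    have e1 : m - c = (m - w) + p * ((e - c) * u) := by
      rw [hw]
      linear_combination c * huv
    have e2 : m - e = (m - w) + q * ((c - e) * v) := by
      rw [hw]
      linear_combination e * huv
    rw [e1, e2, (Int.dvd_add_left (Dvd.intro _ rfl)), (Int.dvd_add_left (Dvd.intro _ rfl))]
    push_cast
    constructor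
    · rintro ⟨h1, h2⟩
      exact IsCoprime.mul_dvd ⟨u, v, huv⟩ h1 h2
    · intro h
      exact ⟨(Dvd.intro _ rfl).trans h, (Dvd.intro_left _ rfl).trans h⟩
  have h2 := card_residue N (p * q) (Nat.mul_pos hp.pos hq.pos) hd w
  rw [← Nat.cast_mul, ← h2]
  congr 2
  ext m
  simp only [Finset.mem_filter]
  rw [h1]

open Classical in
/-- The number of conditions satisfied by `m`. -/
noncomputable def cond (S : Finset ℕ) (c : ℕ → ℤ) (m : ℕ) : ℕ :=
  (S.filter (fun p : ℕ => (p : ℤ) ∣ (m : ℤ) - c p)).card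

/-- Turan's second moment bound. -/
lemma second_moment (S : Finset ℕ) (hS : ∀ p ∈ S, p.Prime) (c : ℕ → ℤ) (N : ℕ)
    (hN : ∏ p ∈ S, p ∣ N) :
    ∑ m ∈ Finset.Icc 1 N, ((cond S c m : ℝ) - ∑ p ∈ S, 1 / (p : ℝ)) ^ 2 ≤
      N * ∑ p ∈ S, 1 / (p : ℝ) := by
  classical
  set lam := ∑ p ∈ S, 1 / (p : ℝ) with hlam
  have hind : ∀ m, (cond S c m : ℝ) = ∑ p ∈ S, if (p : ℤ) ∣ (m : ℤ) - c p then (1 : ℝ) else 0 := by
    intro m
    unfold cond
    rw [Finset.card_filter]
    push_cast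
    rfl
  have h1 : ∑ m ∈ Finset.Icc 1 N, (cond S c m : ℝ) = N * lam := by
    simp_rw [hind]
    rw [Finset.sum_comm, hlam, Finset.mul_sum]
    refine Finset.sum_congr rfl fun p hp => ?_
    rw [← Finset.sum_filter, Finset.sum_const, nsmul_eq_mul, mul_one,
      card_residue N p (hS p hp).pos ((Finset.dvd_prod_of_mem _ hp).trans hN)]
    ring
  have h2 : ∑ m ∈ Finset.Icc 1 N, (cond S c m : ℝ) ^ 2 ≤ N * lam ^ 2 + N * lam := by
    have e1 : ∀ m, (cond S c m : ℝ) ^ 2 = ∑ p ∈ S, ∑ q ∈ S,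
        if ((p : ℤ) ∣ (m : ℤ) - c p ∧ (q : ℤ) ∣ (m : ℤ) - c q) then (1 : ℝ) else 0 := by
      intro m
      rw [sq, hind, Finset.sum_mul_sum]
      refine Finset.sum_congr rfl fun p _ => Finset.sum_congr rfl fun q _ => ?_
      by_cases hp : (p : ℤ) ∣ (m : ℤ) - c p <;> by_cases hq : (q : ℤ) ∣ (m : ℤ) - c q <;>
        simp [hp, hq]
    simp_rw [e1]
    rw [Finset.sum_comm]
    have e2 : ∀ p ∈ S, ∑ m ∈ Finset.Icc 1 N, ∑ q ∈ S,
        (if ((p : ℤ) ∣ (m : ℤ) - c p ∧ (q : ℤ) ∣ (m : ℤ) - c q) then (1 : ℝ) else 0) ≤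
        N * ((1 / (p : ℝ)) * lam) + N * (1 / (p : ℝ)) := by
      intro p hp
      rw [Finset.sum_comm]
      have e3 : ∀ q ∈ S, ∑ m ∈ Finset.Icc 1 N,
          (if ((p : ℤ) ∣ (m : ℤ) - c p ∧ (q : ℤ) ∣ (m : ℤ) - c q) then (1 : ℝ) else 0) ≤
          N * ((1 / (p : ℝ)) * (1 / (q : ℝ))) + (if q = p then N * (1 / (p : ℝ)) else 0) := by
        intro q hq
        rw [← Finset.sum_filter, Finset.sum_const, nsmul_eq_mul, mul_one]
        by_cases hqp : q = p
        · subst hqp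
          rw [if_pos rfl]
          have : (((Finset.Icc 1 N).filter
              (fun m : ℕ => (q : ℤ) ∣ (m : ℤ) - c q ∧ (q : ℤ) ∣ (m : ℤ) - c q)).card : ℝ) = N / q := by
            rw [← card_residue N q (hS q hq).pos ((Finset.dvd_prod_of_mem _ hq).trans hN) (c q)]
            congr 2
            ext m
            simp
          rw [this]
          have : (0 : ℝ) ≤ N * (1 / (q : ℝ) * (1 / q)) := by positivity
          have h3 : (N : ℝ) / q = N * (1 / q) := by ring
          linarith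
        · rw [if_neg hqp, add_zero]
          have hpqd : p * q ∣ N := by
            refine Dvd.dvd.trans ?_ hN
            have : p * q = ∏ x ∈ ({p, q} : Finset ℕ), x := by
              rw [Finset.prod_pair (fun h => hqp h.symm)]
            rw [this]
            apply Finset.prod_dvd_prod_of_subset
            intro x hx
            rw [Finset.mem_insert, Finset.mem_singleton] at hx
            rcases hx with rfl | rfl <;> assumption
          rw [card_residue_two N p q (hS p hp) (hS q hq) (fun h => hqp h.symm) hpqd]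
          apply le_of_eq
          field_simp
      refine (Finset.sum_le_sum e3).trans ?_
      rw [Finset.sum_add_distrib, Finset.sum_ite_eq' S p, if_pos hp, ← Finset.mul_sum,
        ← Finset.mul_sum]
    refine (Finset.sum_le_sum e2).trans ?_
    rw [Finset.sum_add_distrib, ← Finset.mul_sum, ← Finset.mul_sum, ← Finset.sum_mul, ← hlam]
    apply le_of_eq
    ring
  have h3 : ∑ m ∈ Finset.Icc 1 N, ((cond S c m : ℝ) - lam) ^ 2 =
      ∑ m ∈ Finset.Icc 1 N, (cond S c m : ℝ) ^ 2 - 2 * lam * ∑ m ∈ Finset.Icc 1 N, (cond S c m : ℝ)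
        + N * lam ^ 2 := by
    have : ∀ m, ((cond S c m : ℝ) - lam) ^ 2 = (cond S c m : ℝ) ^ 2 - 2 * lam * (cond S c m : ℝ)
        + lam ^ 2 := fun m => by ring
    simp_rw [this]
    rw [Finset.sum_add_distrib, Finset.sum_sub_distrib, ← Finset.mul_sum, Finset.sum_const,
      Nat.card_Icc, nsmul_eq_mul, Nat.add_sub_cancel]
  rw [h3, h1]
  nlinarith

/-- Few `m` satisfy at most `K` conditions. -/
lemma card_cond_le (S : Finset ℕ) (hS : ∀ p ∈ S, p.Prime) (c : ℕ → ℤ) (N K : ℕ)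
    (hN : ∏ p ∈ S, p ∣ N) (hlam : 4 * (K : ℝ) + 8 ≤ ∑ p ∈ S, 1 / (p : ℝ)) :
    4 * (((Finset.Icc 1 N).filter (fun m => cond S c m ≤ K)).card : ℝ) ≤ N := by
  set lam := ∑ p ∈ S, 1 / (p : ℝ) with hl
  have h1 := second_moment S hS c N hN
  rw [← hl] at h1
  have hKl : (K : ℝ) ≤ lam / 4 - 2 := by linarith
  have hK0 : (0 : ℝ) ≤ K := by positivity
  have hlam8 : 8 ≤ lam := by linarith
  have h2 : (((Finset.Icc 1 N).filter (fun m => cond S c m ≤ K)).card : ℝ) * (4 * lam) ≤
      ∑ m ∈ Finset.Icc 1 N, ((cond S c m : ℝ) - lam) ^ 2 := by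
    calc (((Finset.Icc 1 N).filter (fun m => cond S c m ≤ K)).card : ℝ) * (4 * lam)
        = ∑ m ∈ (Finset.Icc 1 N).filter (fun m => cond S c m ≤ K), (4 * lam) := by
          rw [Finset.sum_const, nsmul_eq_mul]
      _ ≤ ∑ m ∈ (Finset.Icc 1 N).filter (fun m => cond S c m ≤ K), ((cond S c m : ℝ) - lam) ^ 2 := by
          refine Finset.sum_le_sum fun m hm => ?_
          rw [Finset.mem_filter] at hm
          have h3 : (cond S c m : ℝ) ≤ K := by exact_mod_cast hm.2
          have h4 : (0 : ℝ) ≤ cond S c m := by positivity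
          have h5 : 3 * lam / 4 ≤ lam - cond S c m := by linarith
          have h6 : (3 * lam / 4) ^ 2 ≤ (lam - cond S c m) ^ 2 :=
            pow_le_pow_left₀ (by positivity) h5 2
          nlinarith
      _ ≤ ∑ m ∈ Finset.Icc 1 N, ((cond S c m : ℝ) - lam) ^ 2 :=
          Finset.sum_le_sum_of_subset_of_nonneg (Finset.filter_subset _ _)
            (fun _ _ _ => sq_nonneg _)
  have h7 := h2.trans h1
  have h8 : (4 * (((Finset.Icc 1 N).filter (fun m => cond S c m ≤ K)).card : ℝ)) * lam ≤ N * lam := by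
    linarith
  exact le_of_mul_le_mul_right h8 (by linarith)

end Pool.Agent.Helper75_OmegaForms
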