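import Mathlib
import Pool.Agent.Helper75_OmegaForms.Roots
import Pool.Agent.Helper75_OmegaForms.Turan
import Pool.Agent.Helper75_OmegaForms.Diverge

/-!
# The number of prime factors of the values of a binary form tends to infinity in density
-/

open Finset Polynomial

namespace Pool.Agent.Helper75_OmegaForms

/-- Distinct prime divisors from a list of congruence conditions bound `Ω` from below. -/
lemma cond_le_cardFactors (S : Finset ℕ) (hS : ∀ p ∈ S, p.Prime) (c : ℕ → ℤ) (m : ℕ) (x : ℤ)
    (hx : x ≠ 0) (h : ∀ p ∈ S, (p : ℤ) ∣ (m : ℤ) - c p → (p : ℤ) ∣ x) :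
    cond S c m ≤ ArithmeticFunction.cardFactors x.natAbs := by
  classical
  have h1 : S.filter (fun p : ℕ => (p : ℤ) ∣ (m : ℤ) - c p) ⊆ x.natAbs.primeFactors := by
    intro p hp
    rw [Finset.mem_filter] at hp
    rw [Nat.mem_primeFactors]
    exact ⟨hS p hp.1, Int.natCast_dvd.mp (h p hp.1 hp.2), Int.natAbs_ne_zero.mpr hx⟩
  calc cond S c m ≤ x.natAbs.primeFactors.card := by
        unfold cond
        convert Finset.card_le_card h1
    _ = x.natAbs.primeFactorsList.toFinset.card := rfl
    _ ≤ x.natAbs.primeFactorsList.length := List.toFinset_card_le _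
    _ = _ := ArithmeticFunction.cardFactors_apply.symm

/-- Abstract version: a function of two integers all of whose values on lines `m = r n` modulo `p`
are divisible by `p` whenever `r` is a root of `f` modulo `p`. -/
lemma escapes_of_roots (q : ℤ → ℤ → ℤ) (f : ℤ[X]) (hf : 0 < f.natDegree)
    (hq0 : ∀ m n : ℕ, 0 < m → 0 < n → q m n ≠ 0)
    (hq : ∀ (p : ℕ) (r : ℤ), (p : ℤ) ∣ f.eval r → ∀ m n : ℤ, (p : ℤ) ∣ m - r * n → (p : ℤ) ∣ q m n) :
    Escapes (fun m n => ArithmeticFunction.cardFactors (q m n).natAbs) := by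
  classical
  intro K N0
  obtain ⟨S, hS, hsum⟩ := primes_with_root f hf (4 * (K : ℝ) + 8)
  have hprod : 0 < ∏ p ∈ S, p := Finset.prod_pos fun p hp => (hS p hp).1.pos
  choose! r hr using fun p hp => (hS p hp).2
  refine ⟨(∏ p ∈ S, p) * (N0 + 1), ?_, by positivity, ?_⟩
  · calc N0 ≤ 1 * (N0 + 1) := by omega
      _ ≤ _ := Nat.mul_le_mul_right _ hprod
  · set N := (∏ p ∈ S, p) * (N0 + 1) with hN
    have hdvd : ∏ p ∈ S, p ∣ N := Dvd.intro _ rfl
    have hcol : ∀ n ∈ Finset.Icc 1 N, 4 * ((Finset.Icc 1 N).filter (fun m : ℕ =>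
        ArithmeticFunction.cardFactors (q m n).natAbs ≤ K)).card ≤ N := by
      intro n hn
      have h1 := card_cond_le S (fun p hp => (hS p hp).1) (fun p => r p * n) N K hdvd hsum.le
      have h2 : (Finset.Icc 1 N).filter (fun m : ℕ =>
          ArithmeticFunction.cardFactors (q m n).natAbs ≤ K) ⊆
          (Finset.Icc 1 N).filter (fun m => cond S (fun p => r p * n) m ≤ K) := by
        intro m hm
        rw [Finset.mem_filter, Finset.mem_Icc] at hm ⊢
        rw [Finset.mem_Icc] at hn
        refine ⟨hm.1, le_trans ?_ hm.2⟩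
        refine cond_le_cardFactors S (fun p hp => (hS p hp).1) _ m _ (hq0 m n (by omega) (by omega)) ?_
        intro p hp hpd
        exact hq p (r p) (hr p hp) m n hpd
      have h3 := Finset.card_le_card h2
      have h4 : 4 * (((Finset.Icc 1 N).filter
          (fun m => cond S (fun p => r p * n) m ≤ K)).card) ≤ N := by exact_mod_cast h1
      omega
    have hsumcard : ((Finset.Icc 1 N ×ˢ Finset.Icc 1 N).filter (fun x : ℕ × ℕ =>
        ArithmeticFunction.cardFactors (q x.1 x.2).natAbs ≤ K)).card =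
        ∑ n ∈ Finset.Icc 1 N, ((Finset.Icc 1 N).filter (fun m : ℕ =>
          ArithmeticFunction.cardFactors (q m n).natAbs ≤ K)).card := by
      rw [Finset.card_filter, Finset.sum_product_right]
      refine Finset.sum_congr rfl fun n _ => ?_
      rw [Finset.card_filter]
    show 4 * ((Finset.Icc 1 N ×ˢ Finset.Icc 1 N).filter (fun x : ℕ × ℕ =>
        ArithmeticFunction.cardFactors (q x.1 x.2).natAbs ≤ K)).card ≤ N ^ 2
    rw [hsumcard, Finset.mul_sum]
    calc ∑ n ∈ Finset.Icc 1 N, 4 * ((Finset.Icc 1 N).filter (fun m : ℕ =>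
          ArithmeticFunction.cardFactors (q m n).natAbs ≤ K)).card
        ≤ ∑ n ∈ Finset.Icc 1 N, N := Finset.sum_le_sum hcol
      _ = N ^ 2 := by simp [sq]

lemma escapes_swap (h : ℕ → ℕ → ℕ) (hh : Escapes (fun m n => h n m)) : Escapes h := by
  intro K N0
  obtain ⟨N, hN1, hN2, hN3⟩ := hh K N0
  refine ⟨N, hN1, hN2, ?_⟩
  have : ((Finset.Icc 1 N ×ˢ Finset.Icc 1 N).filter (fun q : ℕ × ℕ => h q.1 q.2 ≤ K)).card =
      ((Finset.Icc 1 N ×ˢ Finset.Icc 1 N).filter (fun q : ℕ × ℕ => h q.2 q.1 ≤ K)).card := by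
    rw [Finset.card_filter, Finset.card_filter, Finset.sum_product, Finset.sum_product_right]
  rw [this]
  exact hN3

lemma escapes_mono (h h' : ℕ → ℕ → ℕ) (hh : Escapes h)
    (hle : ∀ m n : ℕ, 0 < m → 0 < n → h m n ≤ h' m n) : Escapes h' := by
  intro K N0
  obtain ⟨N, hN1, hN2, hN3⟩ := hh K N0
  refine ⟨N, hN1, hN2, le_trans ?_ hN3⟩
  apply Nat.mul_le_mul_left
  apply Finset.card_le_card
  intro q hq
  simp only [Finset.mem_filter, Finset.mem_product, Finset.mem_Icc] at hq ⊢
  exact ⟨hq.1, (hle q.1 q.2 (by omega) (by omega)).trans hq.2⟩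

lemma eval_scale (Q : MvPolynomial (Fin 2) ℤ) (d : ℕ) (hQ : Q.IsHomogeneous d) (t x y : ℤ) :
    MvPolynomial.eval ![t * x, t * y] Q = t ^ d * MvPolynomial.eval ![x, y] Q := by
  rw [MvPolynomial.eval_eq', MvPolynomial.eval_eq', Finset.mul_sum]
  refine Finset.sum_congr rfl fun e he => ?_
  have h1 : e 0 + e 1 = d := by
    have := hQ (MvPolynomial.mem_support_iff.mp he)
    simpa [Finsupp.weight_apply, Finsupp.sum_fintype, Fin.sum_univ_two] using this
  simp only [Fin.prod_univ_two, Matrix.cons_val_zero, Matrix.cons_val_one, mul_pow]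
  rw [← h1, pow_add]
  ring

lemma dvd_sub_right_iff_helper {p x y : ℤ} (h1 : p ∣ x - y) (h2 : p ∣ y) : p ∣ x := by
  have := dvd_add h1 h2
  simpa using this

lemma poly_eval (Q : MvPolynomial (Fin 2) ℤ) (u v : ℤ[X]) (r : ℤ) :
    (MvPolynomial.aeval ![u, v] Q : ℤ[X]).eval r = MvPolynomial.eval ![u.eval r, v.eval r] Q := by
  rw [MvPolynomial.aeval_def, MvPolynomial.polynomial_eval_eval₂]
  have h1 : (Polynomial.evalRingHom r).comp (algebraMap ℤ ℤ[X]) = RingHom.id ℤ :=
    Subsingleton.elim _ _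
  rw [h1]
  have h2 : (fun s : Fin 2 => Polynomial.eval r (![u, v] s)) = ![u.eval r, v.eval r] := by
    funext s
    fin_cases s <;> rfl
  rw [h2]
  rfl

/-- The values of a nonconstant binary form have many prime factors for most pairs. -/
theorem escapes_form (Q : MvPolynomial (Fin 2) ℤ) (d : ℕ) (hd : 0 < d) (hQ : Q.IsHomogeneous d)
    (h0 : ∀ m n : ℕ, 0 < m → 0 < n → MvPolynomial.eval ![(m : ℤ), (n : ℤ)] Q ≠ 0) :
    Escapes (fun m n => ArithmeticFunction.cardFactors
      (MvPolynomial.eval ![(m : ℤ), (n : ℤ)] Q).natAbs) := by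
  -- the two dehomogenizations
  set f : ℤ[X] := MvPolynomial.aeval ![Polynomial.X, 1] Q with hf
  set g : ℤ[X] := MvPolynomial.aeval ![1, Polynomial.X] Q with hg
  have hfe : ∀ r : ℤ, f.eval r = MvPolynomial.eval ![r, 1] Q := by
    intro r
    rw [hf, poly_eval]
    simp
  have hge : ∀ r : ℤ, g.eval r = MvPolynomial.eval ![1, r] Q := by
    intro r
    rw [hg, poly_eval]
    simp
  have hH : ∀ n m : ℤ, (MvPolynomial.aeval ![Polynomial.X, Polynomial.C n] Q : ℤ[X]).eval m =
      MvPolynomial.eval ![m, n] Q := by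
    intro n m
    rw [poly_eval]
    simp
  have hH' : ∀ n m : ℤ, (MvPolynomial.aeval ![Polynomial.C n, Polynomial.X] Q : ℤ[X]).eval m =
      MvPolynomial.eval ![n, m] Q := by
    intro n m
    rw [poly_eval]
    simp
  by_cases hfd : 0 < f.natDegree
  · apply escapes_of_roots (fun m n => MvPolynomial.eval ![m, n] Q) f hfd h0
    intro p r hpr m n hmn
    rw [hfe] at hpr
    have h1 : m - r * n ∣ MvPolynomial.eval ![m, n] Q - MvPolynomial.eval ![r * n, n] Q := by
      rw [← hH, ← hH]
      exact Polynomial.sub_dvd_eval_sub _ _ _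
    have h2 : MvPolynomial.eval ![r * n, n] Q = n ^ d * MvPolynomial.eval ![r, 1] Q := by
      rw [← eval_scale Q d hQ n r 1, mul_comm r n, mul_one]
    have h3 : (p : ℤ) ∣ MvPolynomial.eval ![r * n, n] Q := by
      rw [h2]
      exact Dvd.dvd.mul_left hpr _
    exact (dvd_sub_right_iff_helper (hmn.trans h1) h3)
  · by_cases hgd : 0 < g.natDegree
    · apply escapes_swap
      apply escapes_of_roots (fun m n => MvPolynomial.eval ![n, m] Q) g hgd
        (fun m n hm hn => h0 n m hn hm)
      intro p r hpr m n hmn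
      rw [hge] at hpr
      have h1 : m - r * n ∣ MvPolynomial.eval ![n, m] Q - MvPolynomial.eval ![n, r * n] Q := by
        rw [← hH', ← hH']
        exact Polynomial.sub_dvd_eval_sub _ _ _
      have h2 : MvPolynomial.eval ![n, r * n] Q = n ^ d * MvPolynomial.eval ![1, r] Q := by
        rw [← eval_scale Q d hQ n 1 r, mul_comm r n, mul_one]
      have h3 : (p : ℤ) ∣ MvPolynomial.eval ![n, r * n] Q := by
        rw [h2]
        exact Dvd.dvd.mul_left hpr _
      exact (dvd_sub_right_iff_helper (hmn.trans h1) h3)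
    · exfalso
      have hf0 : f = Polynomial.C (f.coeff 0) := Polynomial.eq_C_of_natDegree_eq_zero (by omega)
      have hg0 : g = Polynomial.C (g.coeff 0) := Polynomial.eq_C_of_natDegree_eq_zero (by omega)
      set c := f.coeff 0 with hc
      have hfc : ∀ r : ℤ, MvPolynomial.eval ![r, 1] Q = c := by
        intro r
        rw [← hfe, hf0, Polynomial.eval_C]
      have h11 : c ≠ 0 := by
        rw [← hfc 1]
        exact_mod_cast h0 1 1 one_pos one_pos
      have hconst : (MvPolynomial.aeval ![Polynomial.X, Polynomial.C (2 : ℤ)] Q : ℤ[X]) =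
          Polynomial.C (2 ^ d * c) := by
        apply Polynomial.eq_of_infinite_eval_eq
        refine Set.Infinite.mono (s := Set.range (fun r : ℤ => 2 * r)) ?_ ?_
        · rintro x ⟨r, rfl⟩
          show Polynomial.eval (2 * r) _ = Polynomial.eval (2 * r) _
          rw [hH, Polynomial.eval_C, ← hfc r, ← eval_scale Q d hQ 2 r 1, mul_one]
        · exact Set.infinite_range_of_injective (fun a b h => by simpa using h)
      have h12 : MvPolynomial.eval ![1, 2] Q = 2 ^ d * c := by
        rw [← hH 2 1, hconst, Polynomial.eval_C]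
      have h13 : MvPolynomial.eval ![(1 : ℤ), 2] Q = MvPolynomial.eval ![(1 : ℤ), 1] Q := by
        rw [← hge 2, ← hge 1, hg0, Polynomial.eval_C, Polynomial.eval_C]
      rw [h12, hfc 1] at h13
      have h14 : (2 : ℤ) ^ d = 1 := by
        have : ((2 : ℤ) ^ d - 1) * c = 0 := by linarith
        rcases mul_eq_zero.mp this with h | h
        · linarith
        · exact absurd h h11
      have h15 : (2 : ℤ) ≤ 2 ^ d := by
        calc (2 : ℤ) = 2 ^ 1 := by norm_num
          _ ≤ 2 ^ d := pow_le_pow_right₀ (by norm_num) hd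
      omega

end Pool.Agent.Helper75_OmegaForms
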